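import Pool.Agent.N449.SQ.Ring

/-!
# Ratios of conjugates which are roots of units
-/

set_option autoImplicit false
set_option maxHeartbeats 1000000

namespace Pool.Agent.N449.SQ

open QuadraticAlgebra

/-- companion Lucas sequence with parameters `T`, `-1` -/
def V (T : ℤ) : ℕ → ℤ
  | 0 => 2
  | 1 => T
  | k + 2 => T * V T (k + 1) + V T k

/-- the field `ℚ(ω)` -/
abbrev K (a : ℤ) := QuadraticAlgebra ℚ 1 (a : ℚ)

theorem fact {a : ℤ} (ha : 1 ≤ a) : Fact (∀ r : ℚ, r ^ 2 ≠ 1 + (a : ℚ) * r) := by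
  constructor
  intro r h
  have h1 : (2 * r - a) ^ 2 = ((a ^ 2 + 4 : ℤ) : ℚ) := by push_cast; linear_combination 4 * h
  have h2 : IsSquare ((a ^ 2 + 4 : ℤ) : ℚ) := ⟨2 * r - a, by rw [← h1]; ring⟩
  rw [Rat.isSquare_intCast_iff] at h2
  obtain ⟨k, hk⟩ := h2
  exact not_sq ha k (by rw [hk]; ring)

/-- the embedding of the field -/
noncomputable def t₁ (a : ℤ) : K a →+* ℝ where
  toFun z := z.re + z.im * eps a
  map_one' := by simp
  map_mul' z w := by
    have := eps_sq a
    simp
    linear_combination (-(z.im : ℝ) * w.im) * this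
  map_zero' := by simp
  map_add' z w := by simp; ring

theorem t₁_apply (a : ℤ) (z : K a) : t₁ a z = z.re + z.im * eps a := rfl

/-- the inclusion -/
def inc (a : ℤ) : R a →+* K a where
  toFun z := ⟨z.re, z.im⟩
  map_one' := by ext <;> simp
  map_mul' z w := by ext <;> simp
  map_zero' := by ext <;> simp
  map_add' z w := by ext <;> simp

theorem t₁_inc (a : ℤ) (z : R a) : t₁ a (inc a z) = s₁ a z := by
  rw [t₁_apply, s₁_apply]; simp [inc]

theorem inc_star (a : ℤ) (z : R a) : inc a (star z) = star (inc a z) := by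
  ext <;> simp [inc]

theorem t₁_star_inc (a : ℤ) (z : R a) : t₁ a (star (inc a z)) = s₂ a z := by
  rw [← inc_star, t₁_inc, s₁_star]

theorem om_star (a : ℤ) : (ω : K a) * star (ω : K a) = -1 := by
  ext <;> simp

theorem norm_om (a : ℤ) : norm (ω : K a) = -1 := by simp [norm_def]

theorem t₁_om (a : ℤ) : t₁ a (ω : K a) = eps a := by simp [t₁_apply]

section
variable {a : ℤ} (ha : 1 ≤ a)
include ha

theorem isInt_om : IsIntegral ℤ (ω : K a) := by
  have : (ω : K a) = inc a ⟨0, 1⟩ := by ext <;> simp [inc]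
  refine ⟨Polynomial.X ^ 2 - Polynomial.C a * Polynomial.X - 1, ?_, ?_⟩
  · monicity!
  · rw [Polynomial.eval₂_sub, Polynomial.eval₂_sub, Polynomial.eval₂_pow, Polynomial.eval₂_mul,
      Polynomial.eval₂_X, Polynomial.eval₂_C, Polynomial.eval₂_one]
    ext <;> simp [pow_two]

/-- A root of `± ω` in the field. -/
theorem no_root (hV : ∀ (T : ℤ) (r : ℕ), 1 ≤ T → 2 ≤ r → Odd r → V T r ≠ a) (r : ℕ) (hr : 2 ≤ r) (θ : K a)
    (h : θ ^ r = ω ∨ θ ^ r = -ω) : False := by
  have := fact ha
  have hn : (norm θ) ^ r = -1 := by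
    rw [← map_pow]
    rcases h with h | h
    · rw [h, norm_om]
    · rw [h, QuadraticAlgebra.norm_neg, norm_om]
  have hodd : Odd r := by
    by_contra hev
    rw [Nat.not_odd_iff_even] at hev
    have := hev.pow_nonneg (norm θ)
    rw [hn] at this
    norm_num at this
  have hn1 : norm θ = -1 := by
    have h1 : (norm θ) ^ r = (-1) ^ r := by rw [hn, hodd.neg_one_pow]
    exact hodd.strictMono_pow.injective h1
  wlog hθ : θ ^ r = ω generalizing θ
  · have h2 : θ ^ r = -ω := h.resolve_left hθ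
    refine this (-θ) ?_ ?_ ?_ ?_
    · left; rw [hodd.neg_pow, h2, neg_neg]
    · rw [QuadraticAlgebra.norm_neg, hn]
    · rw [QuadraticAlgebra.norm_neg, hn1]
    · rw [hodd.neg_pow, h2, neg_neg]
  have hi : IsIntegral ℤ θ := IsIntegral.of_pow (by omega : 0 < r) (hθ ▸ isInt_om ha)
  have hi' : IsIntegral ℤ (star θ) := by
    have h1 : (star θ) ^ r = star (ω : K a) := by rw [← star_pow, hθ]
    refine IsIntegral.of_pow (by omega : 0 < r) (h1 ▸ ?_)
    have h2 : star (ω : K a) = algebraMap ℤ (K a) a - ω := by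
      ext <;> simp
    rw [h2]
    exact isIntegral_algebraMap.sub (isInt_om ha)
  have htr : algebraMap ℚ (K a) (trace θ) = θ + star θ := algebraMap_trace_eq_add_star θ
  have hit : IsIntegral ℤ (trace θ) := by
    rw [← isIntegral_algebraMap_iff (algebraMap ℚ (K a)).injective, htr]
    exact hi.add hi'
  obtain ⟨T, hT⟩ := IsIntegrallyClosed.isIntegral_iff.1 hit
  have hT' : trace θ = (T : ℚ) := by rw [← hT]; simp
  -- the powers
  have hV2 : ∀ k : ℕ, trace (θ ^ k) = (V T k : ℚ) := by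
    have hsq : θ ^ 2 = (T : ℚ) • θ + 1 := by
      have := sq_eq_trace_smul_sub_norm (z := θ)
      rw [this, hn1, hT']
      simp
    intro k
    induction k using Nat.strong_induction_on with
    | _ k ih =>
      match k with
      | 0 => simp [V]
      | 1 => simp [V, hT']
      | k + 2 =>
        have e : θ ^ (k + 2) = (T : ℚ) • θ ^ (k + 1) + θ ^ k := by
          rw [pow_add, hsq, mul_add, mul_smul_comm, mul_one, pow_succ]
        rw [e, map_add, map_smul, ih (k + 1) (by omega), ih k (by omega), V]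
        push_cast
        simp
  have h1 := hV2 r
  rw [hθ, trace_omega] at h1
  have h2 : a = V T r := by exact_mod_cast h1
  refine hV T r ?_ hr hodd h2.symm
  -- positivity
  have e1 : (t₁ a θ) ^ r = eps a := by rw [← map_pow, hθ, t₁_om]
  have e2 : 1 < t₁ a θ := by
    have h3 : (1 : ℝ) ^ r < (t₁ a θ) ^ r := by rw [e1, one_pow]; exact one_lt_eps ha
    exact hodd.strictMono_pow.lt_iff_lt.1 h3
  have e3 : (t₁ a θ) * t₁ a (star θ) = -1 := by
    rw [← map_mul, ← algebraMap_norm_eq_mul_star, hn1]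
    simp
  have e4 : t₁ a θ + t₁ a (star θ) = T := by
    rw [← map_add, ← htr, hT']
    simp
  have e5 : (0 : ℝ) < T := by
    rw [← e4]
    nlinarith
  have : (0 : ℤ) < T := by exact_mod_cast e5
  omega

/-- A ratio of conjugates which is, up to sign, a root of a power of `ω`. -/
theorem ratio (hV : ∀ (T : ℤ) (r : ℕ), 1 ≤ T → 2 ≤ r → Odd r → V T r ≠ a) (p : ℕ) (hp : p.Prime)
    (hp2 : p ≠ 2) (q m : ℕ) (hqp : q < p) (hm : 0 < m) (hmq : m < q) (z : R a) (hz : z ≠ 0)
    (h : |s₁ a z| ^ q = |s₂ a z| ^ q * eps a ^ (2 * p * m)) : False := by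
  have hF := fact ha
  have he0 := eps_pos a
  have he1 := one_lt_eps ha
  have hpo : Odd p := hp.odd_of_ne_two hp2
  have hinj : Function.Injective (t₁ a) := (t₁ a).injective
  have hZ0 : inc a z ≠ 0 := by
    intro h0
    have h1 : s₁ a z = 0 := by rw [← t₁_inc, h0, map_zero]
    exact hz (s₁_inj ha (by rw [h1, map_zero]))
  have hS0 : star (inc a z) ≠ 0 := by simpa using hZ0
  have hω0 : (ω : K a) ≠ 0 := by
    intro h0
    have := t₁_om a
    rw [h0, map_zero] at this
    exact he0.ne' this.symm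
  obtain ⟨η, hη⟩ : ∃ η : K a, η = inc a z / star (inc a z) := ⟨_, rfl⟩
  have hη0 : η ≠ 0 := by rw [hη]; exact div_ne_zero hZ0 hS0
  have hηs : star η = η⁻¹ := by
    rw [hη, inv_div, star_div₀, star_star]
  have hη1 : |t₁ a η| ^ q = eps a ^ (2 * p * m) := by
    have h2 : s₂ a z ≠ 0 := by
      rw [← t₁_star_inc]
      exact (map_ne_zero_iff _ hinj).2 hS0
    rw [hη, map_div₀, t₁_inc, t₁_star_inc, abs_div, div_pow, h]
    field_simp
  -- the gcd
  set g := Nat.gcd q (2 * p * m) with hg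
  have hg0 : 0 < g := Nat.gcd_pos_of_pos_left _ (by omega)
  obtain ⟨r, hr⟩ : g ∣ q := Nat.gcd_dvd_left _ _
  obtain ⟨n', hn'⟩ : g ∣ 2 * p * m := Nat.gcd_dvd_right _ _
  have hcop : Nat.Coprime r n' := by
    have h1 := Nat.coprime_div_gcd_div_gcd (m := q) (n := 2 * p * m) hg0
    rw [← hg] at h1
    rwa [show q / g = r from by rw [hr]; exact Nat.mul_div_cancel_left _ hg0,
      show 2 * p * m / g = n' from by rw [hn']; exact Nat.mul_div_cancel_left _ hg0] at h1
  have hr0 : 0 < r := by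
    rcases Nat.eq_zero_or_pos r with h0 | h0
    · rw [h0, mul_zero] at hr; omega
    · exact h0
  -- the `r`-th power
  have hη2 : η ^ r = ω ^ n' ∨ η ^ r = -ω ^ n' := by
    have h1 : (|t₁ a η| ^ r) ^ g = (eps a ^ n') ^ g := by
      rw [← pow_mul, ← pow_mul, mul_comm r, ← hr, mul_comm n', ← hn', hη1]
    have h2 : |t₁ a η| ^ r = eps a ^ n' :=
      (pow_left_inj₀ (by positivity) (by positivity) hg0.ne').1 h1
    have h3 : |t₁ a (η ^ r)| = |t₁ a (ω ^ n')| := by
      rw [map_pow, map_pow, abs_pow, h2, t₁_om, abs_of_pos (pow_pos he0 _)]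
    rcases abs_eq_abs.1 h3 with h4 | h4
    · left; exact hinj h4
    · right; exact hinj (by rw [h4, map_neg])
  rcases (by omega : r = 1 ∨ 2 ≤ r) with hr1 | hr2
  · -- `q ∣ 2 m`
    have hgq : g = q := by rw [hr1, mul_one] at hr; exact hr.symm
    have h1 : q ∣ 2 * p * m := by rw [← hgq]; exact Nat.gcd_dvd_right _ _
    have h2 : q ∣ 2 * m := by
      have hcq : Nat.Coprime q p := by
        rw [Nat.coprime_comm]
        exact (Nat.Prime.coprime_iff_not_dvd hp).2 fun hd => by
          have := Nat.le_of_dvd (by omega) hd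
          omega
      refine hcq.dvd_of_dvd_mul_right ?_ (m := 2 * m)
      rwa [show 2 * m * p = 2 * p * m by ring]
    obtain ⟨k, hk⟩ := h2
    have hk1 : k = 1 := by
      rcases (by omega : k = 0 ∨ k = 1 ∨ 2 ≤ k) with h3 | h3 | h3
      · subst h3; omega
      · exact h3
      · have : q * 2 ≤ q * k := Nat.mul_le_mul_left _ h3
        omega
    rw [hk1, mul_one] at hk
    have hnp : n' = p := by
      rw [hgq, ← hk] at hn'
      have : 2 * m * p = 2 * m * n' := by rw [← hn']; ring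
      exact (Nat.eq_of_mul_eq_mul_left (by omega) this).symm
    rw [hr1, pow_one, hnp] at hη2
    have hst : star ((ω : K a) ^ p) * ω ^ p = -1 := by
      rw [star_pow, ← mul_pow, mul_comm, om_star, hpo.neg_one_pow]
    have h5 : star η * η = 1 := by rw [hηs, inv_mul_cancel₀ hη0]
    rcases hη2 with h6 | h6
    · rw [h6, hst] at h5
      norm_num at h5
    · rw [h6, star_neg, neg_mul_neg, hst] at h5
      norm_num at h5
  · -- a root of `ω`
    have hbez : (r : ℤ) * Nat.gcdA r n' + n' * Nat.gcdB r n' = 1 := by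
      have := Nat.gcd_eq_gcd_ab r n'
      rw [hcop] at this
      exact_mod_cast this.symm
    obtain ⟨v, hv⟩ : ∃ v : ℤ, v = Nat.gcdA r n' := ⟨_, rfl⟩
    obtain ⟨u, hu⟩ : ∃ u : ℤ, u = Nat.gcdB r n' := ⟨_, rfl⟩
    rw [← hv, ← hu] at hbez
    refine no_root ha hV r hr2 (η ^ u * ω ^ v) ?_
    have e1 : (η ^ u * ω ^ v) ^ r = (η ^ r) ^ u * ω ^ (r * v : ℤ) := by
      rw [mul_pow]
      congr 1
      · rw [← zpow_natCast, ← zpow_natCast, ← zpow_mul, ← zpow_mul, mul_comm]
      · rw [← zpow_natCast, ← zpow_mul, mul_comm]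
    have e2 : (ω ^ n' : K a) ^ u * ω ^ (r * v : ℤ) = ω := by
      rw [← zpow_natCast, ← zpow_mul, ← zpow_add₀ hω0,
        show (n' : ℤ) * u + r * v = 1 by linarith, zpow_one]
    rcases hη2 with h6 | h6
    · left
      rw [e1, h6, e2]
    · rw [e1, h6]
      rcases Int.even_or_odd u with h7 | h7
      · left
        rw [h7.neg_zpow, e2]
      · right
        rw [h7.neg_zpow, neg_mul, e2]

end

end Pool.Agent.N449.SQ
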