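import Mathlib

/-!
# The ring `ℤ[ε]`, `ε ^ 2 = a ε + 1`, and the block lemma in base `ε`
-/

set_option autoImplicit false
set_option maxHeartbeats 1000000

namespace Pool.Agent.N449.SQ

open QuadraticAlgebra Finset

/-- the ring `ℤ[ω]`, `ω ^ 2 = 1 + a ω` -/
abbrev R (a : ℤ) := QuadraticAlgebra ℤ 1 a

/-- `ε = (a + √(a ^ 2 + 4)) / 2` -/
noncomputable def eps (a : ℤ) : ℝ := (a + √((a : ℝ) ^ 2 + 4)) / 2

/-- `ε' = (a - √(a ^ 2 + 4)) / 2` -/
noncomputable def eps' (a : ℤ) : ℝ := (a - √((a : ℝ) ^ 2 + 4)) / 2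

theorem sqrt_sq (a : ℤ) : √((a : ℝ) ^ 2 + 4) ^ 2 = (a : ℝ) ^ 2 + 4 :=
  Real.sq_sqrt (by positivity)

theorem eps_sq (a : ℤ) : eps a ^ 2 = 1 + a * eps a := by
  have := sqrt_sq a
  unfold eps
  nlinarith

theorem eps'_sq (a : ℤ) : eps' a ^ 2 = 1 + a * eps' a := by
  have := sqrt_sq a
  unfold eps'
  nlinarith

theorem eps_mul (a : ℤ) : eps a * eps' a = -1 := by
  have := sqrt_sq a
  unfold eps eps'
  nlinarith

theorem eps_add (a : ℤ) : eps a + eps' a = a := by
  unfold eps eps'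
  ring

theorem eps_pos (a : ℤ) : 0 < eps a := by
  unfold eps
  have h : |(a : ℝ)| < √((a : ℝ) ^ 2 + 4) := by
    rw [Real.lt_sqrt (abs_nonneg _), sq_abs]
    linarith
  have := neg_abs_le (a : ℝ)
  linarith

theorem one_lt_eps {a : ℤ} (ha : 1 ≤ a) : 1 < eps a := by
  unfold eps
  have h1 : (1 : ℝ) ≤ a := by exact_mod_cast ha
  have h : (2 : ℝ) < √((a : ℝ) ^ 2 + 4) := by
    rw [Real.lt_sqrt (by norm_num)]
    nlinarith
  linarith

theorem eps'_eq (a : ℤ) : eps' a = -(eps a)⁻¹ := by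
  have h := eps_mul a
  have h0 := (eps_pos a).ne'
  field_simp
  linarith

/-- first embedding -/
noncomputable def s₁ (a : ℤ) : R a →+* ℝ where
  toFun z := z.re + z.im * eps a
  map_one' := by simp
  map_mul' z w := by
    have := eps_sq a
    simp
    linear_combination (-(z.im : ℝ) * w.im) * this
  map_zero' := by simp
  map_add' z w := by simp; ring

/-- second embedding -/
noncomputable def s₂ (a : ℤ) : R a →+* ℝ where
  toFun z := z.re + z.im * eps' a
  map_one' := by simp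
  map_mul' z w := by
    have := eps'_sq a
    simp
    linear_combination (-(z.im : ℝ) * w.im) * this
  map_zero' := by simp
  map_add' z w := by simp; ring

theorem s₁_apply (a : ℤ) (z : R a) : s₁ a z = z.re + z.im * eps a := rfl
theorem s₂_apply (a : ℤ) (z : R a) : s₂ a z = z.re + z.im * eps' a := rfl

theorem s₁_star (a : ℤ) (z : R a) : s₁ a (star z) = s₂ a z := by
  rw [s₁_apply, s₂_apply]
  have := eps_add a
  simp
  linear_combination (-(z.im : ℝ)) * this

theorem s₂_star (a : ℤ) (z : R a) : s₂ a (star z) = s₁ a z := by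
  rw [s₁_apply, s₂_apply]
  have := eps_add a
  simp
  linear_combination (-(z.im : ℝ)) * this

theorem norm_eq (a : ℤ) (z : R a) : ((norm z : ℤ) : ℝ) = s₁ a z * s₂ a z := by
  rw [s₁_apply, s₂_apply, norm_def]
  have h1 := eps_add a
  have h2 := eps_mul a
  push_cast
  linear_combination (-(z.re : ℝ) * z.im) * h1 - ((z.im : ℝ) ^ 2) * h2

theorem not_sq {a : ℤ} (ha : 1 ≤ a) (k : ℤ) : k ^ 2 ≠ a ^ 2 + 4 := by
  intro h
  wlog hk : 0 ≤ k generalizing k
  · exact this (-k) (by rw [neg_sq, h]) (by omega)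
  have h1 : a < k := by nlinarith
  rcases (by omega : a + 1 = k ∨ a + 2 ≤ k) with h2 | h2
  · rw [← h2] at h
    have : 2 * a = 3 := by linarith
    omega
  · nlinarith

theorem norm_ne_zero {a : ℤ} (ha : 1 ≤ a) {z : R a} (hz : z ≠ 0) : norm z ≠ 0 := by
  intro h
  rw [norm_def] at h
  have h1 : (2 * z.re + a * z.im) ^ 2 = (a ^ 2 + 4) * z.im ^ 2 := by linear_combination 4 * h
  by_cases him : z.im = 0
  · rw [him] at h1
    have : z.re = 0 := by
      have : (2 * z.re) ^ 2 = 0 := by simpa using h1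
      simpa using this
    exact hz (QuadraticAlgebra.ext this him)
  · have h2 : z.im ^ 2 ∣ (2 * z.re + a * z.im) ^ 2 := ⟨a ^ 2 + 4, by rw [h1]; ring⟩
    obtain ⟨k, hk⟩ := (Int.pow_dvd_pow_iff two_ne_zero).1 h2
    rw [hk] at h1
    have h3 : k ^ 2 = a ^ 2 + 4 := by
      have h4 : z.im ^ 2 * (k ^ 2) = z.im ^ 2 * (a ^ 2 + 4) := by linear_combination h1
      exact mul_left_cancel₀ (pow_ne_zero 2 him) h4
    exact not_sq ha k h3

theorem one_le_abs {a : ℤ} (ha : 1 ≤ a) {z : R a} (hz : z ≠ 0) : 1 ≤ |s₁ a z| * |s₂ a z| := by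
  rw [← abs_mul, ← norm_eq]
  have := Int.one_le_abs (norm_ne_zero ha hz)
  exact_mod_cast this

theorem s₁_inj {a : ℤ} (ha : 1 ≤ a) : Function.Injective (s₁ a) := by
  rw [injective_iff_map_eq_zero]
  intro z hz
  by_contra h
  have := one_le_abs ha h
  rw [hz] at this
  simp at this
  linarith

theorem isDomain {a : ℤ} (ha : 1 ≤ a) : IsDomain (R a) := (s₁_inj ha).isDomain _

/-- the unit `ω` -/
def wu (a : ℤ) : (R a)ˣ where
  val := ⟨0, 1⟩
  inv := ⟨-a, 1⟩
  val_inv := by ext <;> simp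
  inv_val := by ext <;> simp

/-- the powers of `ω` -/
def w (a : ℤ) (x : ℤ) : R a := ((wu a ^ x : (R a)ˣ) : R a)

theorem w_zero (a : ℤ) : w a 0 = 1 := by simp [w]

theorem w_add (a x y : ℤ) : w a (x + y) = w a x * w a y := by
  simp [w, zpow_add]

theorem s₁_w (a x : ℤ) : s₁ a (w a x) = eps a ^ x := by
  have h : (Units.map (s₁ a : R a →* ℝ) (wu a) : ℝ) = eps a := by
    simp [wu, s₁_apply]
  have h2 : s₁ a (w a x) = ((Units.map (s₁ a : R a →* ℝ) (wu a) ^ x : ℝˣ) : ℝ) := by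
    rw [← map_zpow]; rfl
  rw [h2, Units.val_zpow_eq_zpow_val, h]

theorem s₂_w (a x : ℤ) : s₂ a (w a x) = eps' a ^ x := by
  have h : (Units.map (s₂ a : R a →* ℝ) (wu a) : ℝ) = eps' a := by
    simp [wu, s₂_apply]
  have h2 : s₂ a (w a x) = ((Units.map (s₂ a : R a →* ℝ) (wu a) ^ x : ℝˣ) : ℝ) := by
    rw [← map_zpow]; rfl
  rw [h2, Units.val_zpow_eq_zpow_val, h]

theorem abs_s₂_w (a x : ℤ) : |s₂ a (w a x)| = eps a ^ (-x) := by
  rw [s₂_w, eps'_eq, abs_zpow, abs_neg, abs_of_pos (inv_pos.2 (eps_pos a)), inv_zpow, zpow_neg]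

theorem w_ne_zero (a : ℤ) (x : ℤ) : w a x ≠ 0 := by
  intro h
  have h1 := s₁_w a x
  rw [h, map_zero] at h1
  exact absurd h1.symm (zpow_ne_zero _ (eps_pos a).ne')

/-- the house -/
noncomputable def hs (a : ℤ) (z : R a) : ℝ := max |s₁ a z| |s₂ a z|

theorem hs_nonneg (a : ℤ) (z : R a) : 0 ≤ hs a z := le_max_of_le_left (abs_nonneg _)

theorem hs_mul (a : ℤ) (z w : R a) : hs a (z * w) ≤ hs a z * hs a w := by
  unfold hs
  refine max_le ?_ ?_
  · rw [map_mul, abs_mul]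
    exact mul_le_mul (le_max_left _ _) (le_max_left _ _) (abs_nonneg _) (hs_nonneg a z)
  · rw [map_mul, abs_mul]
    exact mul_le_mul (le_max_right _ _) (le_max_right _ _) (abs_nonneg _) (hs_nonneg a z)

theorem hs_star (a : ℤ) (z : R a) : hs a (star z) = hs a z := by
  unfold hs
  rw [s₁_star, s₂_star, max_comm]

theorem hs_neg (a : ℤ) (z : R a) : hs a (-z) = hs a z := by
  unfold hs
  rw [map_neg, map_neg, abs_neg, abs_neg]

theorem block_le {ι : Type*} {a : ℤ} (ha : 1 ≤ a) (I : Finset ι) (x : ι → ℤ) (c : ι → R a) (ℓ : ι → ℤ)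
    (H : ℝ) (hH : ∑ i ∈ I, hs a (c i) ≤ H)
    (hsum : ∑ i ∈ I, c i * w a (x i) = 0)
    (hgap : ∀ i ∈ I, ∀ j ∈ I, ℓ i < ℓ j → H ^ 2 * eps a ^ x i < eps a ^ x j)
    (L : ℤ) : ∑ i ∈ I with ℓ i ≤ L, c i * w a (x i) = 0 := by
  classical
  have he0 := eps_pos a
  have he1 := one_lt_eps ha
  have hH0 : 0 ≤ H := (Finset.sum_nonneg fun i _ => hs_nonneg a (c i)).trans hH
  set U := I.filter (fun i => ℓ i ≤ L) with hU
  set V := I.filter (fun i => ¬ ℓ i ≤ L) with hV
  have hUV : ∑ i ∈ U, c i * w a (x i) + ∑ i ∈ V, c i * w a (x i) = 0 := by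
    rw [hU, hV, Finset.sum_filter_add_sum_filter_not, hsum]
  rcases U.eq_empty_or_nonempty with hUe | hUn
  · rw [hUe]; simp
  rcases V.eq_empty_or_nonempty with hVe | hVn
  · rw [hVe] at hUV; simpa using hUV
  obtain ⟨i, hiU, hi⟩ := U.exists_max_image x hUn
  obtain ⟨j, hjV, hj⟩ := V.exists_min_image x hVn
  have hiI : i ∈ I := (Finset.mem_filter.1 hiU).1
  have hjI : j ∈ I := (Finset.mem_filter.1 hjV).1
  have hij : ℓ i < ℓ j := lt_of_le_of_lt (Finset.mem_filter.1 hiU).2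
    (not_le.1 (Finset.mem_filter.1 hjV).2)
  have hg := hgap i hiI j hjI hij
  by_contra hne
  have h1 := one_le_abs ha hne
  have hb1 : |s₁ a (∑ k ∈ U, c k * w a (x k))| ≤ H * eps a ^ x i := by
    rw [map_sum]
    calc _ ≤ ∑ k ∈ U, |s₁ a (c k * w a (x k))| := Finset.abs_sum_le_sum_abs _ _
      _ ≤ ∑ k ∈ U, hs a (c k) * eps a ^ x i := by
          refine Finset.sum_le_sum fun k hk => ?_
          rw [map_mul, abs_mul, s₁_w, abs_of_pos (zpow_pos he0 _)]
          exact mul_le_mul (le_max_left _ _) (zpow_le_zpow_right₀ he1.le (hi k hk))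
            (zpow_pos he0 _).le (hs_nonneg a _)
      _ = (∑ k ∈ U, hs a (c k)) * eps a ^ x i := by rw [Finset.sum_mul]
      _ ≤ H * eps a ^ x i := by
          refine mul_le_mul_of_nonneg_right ?_ (zpow_pos he0 _).le
          exact (Finset.sum_le_sum_of_subset_of_nonneg (Finset.filter_subset _ _)
            (fun _ _ _ => hs_nonneg a _)).trans hH
  have hb2 : |s₂ a (∑ k ∈ U, c k * w a (x k))| ≤ H * eps a ^ (-x j) := by
    have e1 : ∑ k ∈ U, c k * w a (x k) = -∑ k ∈ V, c k * w a (x k) := eq_neg_of_add_eq_zero_left hUV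
    rw [e1, map_neg, abs_neg, map_sum]
    calc _ ≤ ∑ k ∈ V, |s₂ a (c k * w a (x k))| := Finset.abs_sum_le_sum_abs _ _
      _ ≤ ∑ k ∈ V, hs a (c k) * eps a ^ (-x j) := by
          refine Finset.sum_le_sum fun k hk => ?_
          rw [map_mul, abs_mul, abs_s₂_w]
          exact mul_le_mul (le_max_right _ _) (zpow_le_zpow_right₀ he1.le (neg_le_neg (hj k hk)))
            (zpow_pos he0 _).le (hs_nonneg a _)
      _ = (∑ k ∈ V, hs a (c k)) * eps a ^ (-x j) := by rw [Finset.sum_mul]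
      _ ≤ H * eps a ^ (-x j) := by
          refine mul_le_mul_of_nonneg_right ?_ (zpow_pos he0 _).le
          exact (Finset.sum_le_sum_of_subset_of_nonneg (Finset.filter_subset _ _)
            (fun _ _ _ => hs_nonneg a _)).trans hH
  have h2 : |s₁ a (∑ k ∈ U, c k * w a (x k))| * |s₂ a (∑ k ∈ U, c k * w a (x k))|
      ≤ (H * eps a ^ x i) * (H * eps a ^ (-x j)) :=
    mul_le_mul hb1 hb2 (abs_nonneg _) (mul_nonneg hH0 (zpow_pos he0 _).le)
  have h3 : (H * eps a ^ x i) * (H * eps a ^ (-x j)) < 1 := by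
    have h4 : (H * eps a ^ x i) * (H * eps a ^ (-x j)) = (H ^ 2 * eps a ^ x i) * eps a ^ (-x j) := by
      ring
    rw [h4]
    calc (H ^ 2 * eps a ^ x i) * eps a ^ (-x j) < eps a ^ x j * eps a ^ (-x j) :=
          mul_lt_mul_of_pos_right hg (zpow_pos he0 _)
      _ = 1 := by rw [← zpow_add₀ he0.ne']; simp
  linarith

/-- The block lemma in base `ε`. -/
theorem block {ι : Type*} {a : ℤ} (ha : 1 ≤ a) (I : Finset ι) (x : ι → ℤ) (c : ι → R a) (ℓ : ι → ℤ)
    (H : ℝ) (hH : ∑ i ∈ I, hs a (c i) ≤ H)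
    (hsum : ∑ i ∈ I, c i * w a (x i) = 0)
    (hgap : ∀ i ∈ I, ∀ j ∈ I, ℓ i < ℓ j → H ^ 2 * eps a ^ x i < eps a ^ x j)
    (L : ℤ) : ∑ i ∈ I with ℓ i = L, c i * w a (x i) = 0 := by
  classical
  have h1 := block_le ha I x c ℓ H hH hsum hgap L
  have h2 := block_le ha I x c ℓ H hH hsum hgap (L - 1)
  have h3 : ∑ i ∈ I with ℓ i ≤ L, c i * w a (x i)
      = ∑ i ∈ I with ℓ i ≤ L - 1, c i * w a (x i) + ∑ i ∈ I with ℓ i = L, c i * w a (x i) := by
    rw [← Finset.sum_union]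
    · congr 1
      ext i
      simp only [Finset.mem_filter, Finset.mem_union]
      constructor
      · rintro ⟨h, h'⟩
        rcases lt_or_eq_of_le h' with h'' | h''
        · left; exact ⟨h, by omega⟩
        · right; exact ⟨h, h''⟩
      · rintro (⟨h, h'⟩ | ⟨h, h'⟩)
        · exact ⟨h, by omega⟩
        · exact ⟨h, by omega⟩
    · rw [Finset.disjoint_left]
      intro i hi hi'
      have := (Finset.mem_filter.1 hi).2
      have := (Finset.mem_filter.1 hi').2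
      omega
  rw [h1, h2, zero_add] at h3
  exact h3.symm

end Pool.Agent.N449.SQ
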