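import Pool.Agent.N449.SF.Core
import Pool.Agent.N449.SQ.Ring

/-!
# Comparison of blocks of digits in base `ε`
-/

set_option autoImplicit false
set_option maxHeartbeats 4000000

namespace Pool.Agent.N449.SQ

open Finset Pool.Agent.N449.SF

theorem engine {ι κ : Type*} {a : ℤ} (ha : 1 ≤ a) (n q t k : ℕ) (hn : 0 < n) (hq : 0 < q)
    (hkt : k < t) (I : Finset ι) (J : Finset κ) (x : ι → ℤ) (y : κ → ℤ) (c : ι → R a) (b : κ → R a)
    (α : ι → ℤ) (β : κ → ℤ)
    (hα : ∀ i ∈ I, ((8 * t : ℕ) : ℤ) * |(q : ℤ) * x i - α i * n| < n)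
    (hβ : ∀ j ∈ J, 2 * |(q : ℤ) * y j - β j * n| ≤ n)
    (hk : ∀ j ∈ J, ¬ ((k : ℤ) * n < 2 * t * |(q : ℤ) * y j - β j * n| ∧
      2 * t * |(q : ℤ) * y j - β j * n| ≤ (k + 1) * n))
    (κ₁ κ₂ : R a)
    (hsum : (∑ i ∈ I, c i * w a (x i)) * (∑ j ∈ J, b j * w a (y j)) = κ₁ * w a n + κ₂ * w a (-n))
    (H : ℝ) (hH : (∑ i ∈ I, hs a (c i)) * (∑ j ∈ J, hs a (b j)) + hs a κ₁ + hs a κ₂ ≤ H)
    (hcon : (H ^ 2) ^ (4 * t * q) < eps a ^ n) (γ : ℤ) :
    ∑ ij ∈ I ×ˢ (J.filter fun j => 2 * t * |(q : ℤ) * y j - β j * n| ≤ k * n),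
      (if α ij.1 + β ij.2 = γ then c ij.1 * w a (x ij.1) * (b ij.2 * w a (y ij.2)) else 0)
      = (if γ = q then κ₁ * w a n else 0) + (if γ = -q then κ₂ * w a (-n) else 0) := by
  classical
  have he0 := eps_pos a
  have he1 := one_lt_eps ha
  set P : ℤ := 8 * t * n with hP
  set Cc : ℤ := 4 * k * n + 2 * n with hCc
  have hnZ : (0 : ℤ) < n := by exact_mod_cast hn
  have ht0 : 0 < t := by omega
  have htZ : (0 : ℤ) < t := by exact_mod_cast ht0
  have hkZ : (0 : ℤ) ≤ k := by positivity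
  have hkt' : (k : ℤ) + 1 ≤ t := by exact_mod_cast hkt
  have hC2 : 2 * (n : ℤ) ≤ Cc := by rw [hCc]; nlinarith
  have hPC : 2 * Cc + 4 * n ≤ P := by rw [hCc, hP]; nlinarith
  have hPpos : 0 < P := by rw [hP]; positivity
  obtain ⟨z, hz⟩ : ∃ z : κ → ℤ, ∀ j, z j = |(q : ℤ) * y j - β j * n| := ⟨_, fun _ => rfl⟩
  simp only [← hz] at hβ hk ⊢
  set J' : Finset κ := J.filter (fun j => 2 * t * z j ≤ k * n) with hJ'
  have hJm : ∀ j, j ∈ J' ↔ j ∈ J ∧ 2 * t * z j ≤ k * n := fun j => by rw [hJ', Finset.mem_filter]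
  clear_value P Cc
  -- the family of terms
  obtain ⟨K, hK⟩ : ∃ K : Finset ((ι × κ) ⊕ Bool), K = (I ×ˢ J).disjSum Finset.univ := ⟨_, rfl⟩
  obtain ⟨X, hx1, hx2, hx3⟩ : ∃ X : (ι × κ) ⊕ Bool → ℤ, (∀ i j, X (Sum.inl (i, j)) = x i + y j) ∧
      X (Sum.inr false) = -n ∧ X (Sum.inr true) = n :=
    ⟨Sum.elim (fun ij => x ij.1 + y ij.2) (fun b => if b then n else -n), fun _ _ => rfl, rfl, rfl⟩
  obtain ⟨Co, hc1, hc2, hc3⟩ : ∃ Co : (ι × κ) ⊕ Bool → R a,
      (∀ i j, Co (Sum.inl (i, j)) = c i * b j) ∧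
      Co (Sum.inr false) = -κ₂ ∧ Co (Sum.inr true) = -κ₁ :=
    ⟨Sum.elim (fun ij => c ij.1 * b ij.2) (fun b => if b then -κ₁ else -κ₂), fun _ _ => rfl, rfl, rfl⟩
  obtain ⟨ℓ, hℓ⟩ : ∃ ℓ : (ι × κ) ⊕ Bool → ℤ, ∀ u, ℓ u = lab Cc P (8 * t * q * X u) :=
    ⟨fun u => lab Cc P (8 * t * q * X u), fun _ => rfl⟩
  have hnearT : ∀ i ∈ I, ∀ j ∈ J', ℓ (Sum.inl (i, j)) = 2 * (α i + β j) - 1 ∧
      Far n Cc P (8 * t * q * X (Sum.inl (i, j))) := by
    intro i hi j hj
    have h1 := hα i hi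
    have h2 := ((hJm j).1 hj).2
    have e1 : (8 * t * q * X (Sum.inl (i, j)) : ℤ)
        = (α i + β j) * P + (8 * t * (q * x i - α i * n) + 8 * t * (q * y j - β j * n)) := by
      rw [hx1, hP]
      ring
    rw [hℓ, e1]
    apply near _ _ _ _ _ hnZ hC2 hPC
    have h3 : |8 * (t : ℤ) * (q * x i - α i * n)| < n := by
      rw [abs_mul, abs_of_pos (by positivity : (0 : ℤ) < 8 * t)]
      push_cast at h1
      exact h1
    have h4 : |8 * (t : ℤ) * (q * y j - β j * n)| ≤ 4 * k * n := by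
      rw [abs_mul, abs_of_pos (by positivity : (0 : ℤ) < 8 * t)]
      rw [hz] at h2
      linarith
    calc _ ≤ |8 * (t : ℤ) * (q * x i - α i * n)| + |8 * (t : ℤ) * (q * y j - β j * n)| :=
          abs_add_le _ _
      _ < Cc - n := by rw [hCc]; linarith
  have hawayT : ∀ i ∈ I, ∀ j ∈ J, j ∉ J' → (∃ γ' : ℤ, ℓ (Sum.inl (i, j)) = 2 * γ') ∧
      Far n Cc P (8 * t * q * X (Sum.inl (i, j))) := by
    intro i hi j hj hj'
    have h1 := hα i hi
    have h2 : (k : ℤ) * n < 2 * t * z j := by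
      by_contra hcc
      exact hj' ((hJm j).2 ⟨hj, not_lt.1 hcc⟩)
    have h3 : ((k : ℤ) + 1) * n < 2 * t * z j := by
      by_contra hcc
      exact hk j hj ⟨h2, not_lt.1 hcc⟩
    have e1 : (8 * t * q * X (Sum.inl (i, j)) : ℤ)
        = (α i + β j) * P + (8 * t * (q * x i - α i * n) + 8 * t * (q * y j - β j * n)) := by
      rw [hx1, hP]
      ring
    rw [hℓ, e1]
    have h4 : |8 * (t : ℤ) * (q * x i - α i * n)| < n := by
      rw [abs_mul, abs_of_pos (by positivity : (0 : ℤ) < 8 * t)]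
      push_cast at h1
      exact h1
    have h5 : |8 * (t : ℤ) * (q * y j - β j * n)| = 4 * (2 * t * z j) := by
      rw [abs_mul, abs_of_pos (by positivity : (0 : ℤ) < 8 * t)]
      rw [hz]
      ring
    have h6 : 2 * z j ≤ n := hβ j hj
    apply away _ _ _ _ _ hnZ hC2 hPC
    · have := abs_sub_abs_le_abs_sub (8 * (t : ℤ) * (q * y j - β j * n))
        (-(8 * (t : ℤ) * (q * x i - α i * n)))
      rw [abs_neg, sub_neg_eq_add, add_comm (8 * (t : ℤ) * (q * y j - β j * n))] at this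
      rw [h5] at this
      rw [hCc]
      linarith
    · have := abs_add_le (8 * (t : ℤ) * (q * x i - α i * n)) (8 * (t : ℤ) * (q * y j - β j * n))
      rw [h5] at this
      have h7 : (t : ℤ) * (2 * z j) ≤ t * n := mul_le_mul_of_nonneg_left h6 htZ.le
      rw [hP]
      linarith
  have hfalse : ℓ (Sum.inr false) = 2 * (-q) - 1 ∧ Far n Cc P (8 * t * q * X (Sum.inr false)) := by
    have e1 : (8 * t * q * X (Sum.inr false) : ℤ) = (-q) * P + 0 := by rw [hx2, hP]; ring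
    rw [hℓ, e1]
    apply near _ _ _ _ _ hnZ hC2 hPC
    simp; linarith
  have htrue : ℓ (Sum.inr true) = 2 * q - 1 ∧ Far n Cc P (8 * t * q * X (Sum.inr true)) := by
    have e1 : (8 * t * q * X (Sum.inr true) : ℤ) = q * P + 0 := by rw [hx3, hP]; ring
    rw [hℓ, e1]
    apply near _ _ _ _ _ hnZ hC2 hPC
    simp; linarith
  have hfar : ∀ u ∈ K, Far n Cc P (8 * t * q * X u) := by
    intro u hu
    rcases u with ⟨i, j⟩ | b
    · have hij : i ∈ I ∧ j ∈ J := by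
        simpa [hK] using hu
      by_cases hj : j ∈ J'
      · exact (hnearT i hij.1 j hj).2
      · exact (hawayT i hij.1 j hij.2 hj).2
    · cases b
      · exact hfalse.2
      · exact htrue.2
  have hsumc : ∑ u ∈ K, hs a (Co u) ≤ H := by
    refine le_trans ?_ hH
    rw [hK, Finset.sum_disjSum, Finset.sum_product, Finset.sum_mul_sum]
    simp only [hc1]
    have h1 : ∑ i ∈ I, ∑ j ∈ J, hs a (c i * b j) ≤ ∑ i ∈ I, ∑ j ∈ J, hs a (c i) * hs a (b j) :=
      Finset.sum_le_sum fun i _ => Finset.sum_le_sum fun j _ => hs_mul a _ _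
    have h2 : ∑ u : Bool, hs a (Co (Sum.inr u)) = hs a κ₁ + hs a κ₂ := by
      rw [Fintype.sum_bool, hc2, hc3, hs_neg, hs_neg]
    linarith
  have hsum' : ∑ u ∈ K, Co u * w a (X u) = 0 := by
    rw [hK, Finset.sum_disjSum, Finset.sum_product]
    simp only [hc1, hx1]
    have : ∑ i ∈ I, ∑ j ∈ J, c i * b j * w a (x i + y j) = κ₁ * w a n + κ₂ * w a (-n) := by
      rw [← hsum, Finset.sum_mul_sum]
      refine Finset.sum_congr rfl fun i _ => Finset.sum_congr rfl fun j _ => ?_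
      rw [w_add]; ring
    rw [this, Fintype.sum_bool, hc2, hc3, hx2, hx3]
    ring
  have hH0 : 0 ≤ H := (Finset.sum_nonneg fun u _ => hs_nonneg a (Co u)).trans hsumc
  have hgap : ∀ u ∈ K, ∀ v ∈ K, ℓ u < ℓ v → H ^ 2 * eps a ^ X u < eps a ^ X v := by
    intro u hu v hv huv
    rw [hℓ, hℓ] at huv
    have h1 := gap n Cc P _ _ hPpos (hfar u hu) (hfar v hv) huv
    have h2 : (n : ℤ) ≤ 4 * t * q * (X v - X u) := by nlinarith
    have h3 : 0 < X v - X u := by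
      by_contra hcc
      push Not at hcc
      have h5 : 4 * (t : ℤ) * q * (X v - X u) ≤ 0 :=
        mul_nonpos_of_nonneg_of_nonpos (by positivity) hcc
      linarith
    obtain ⟨g, hg⟩ := Int.eq_ofNat_of_zero_le h3.le
    have hv' : X v = X u + g := by omega
    rw [hv', zpow_add₀ he0.ne', mul_comm]
    refine mul_lt_mul_of_pos_left ?_ (zpow_pos he0 _)
    by_contra hcc
    push Not at hcc
    rw [zpow_natCast] at hcc
    rw [hg] at h2
    have h6 : n ≤ g * (4 * t * q) := by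
      have : (n : ℤ) ≤ ((g * (4 * t * q) : ℕ) : ℤ) := by push_cast; linarith
      exact_mod_cast this
    have h7 : eps a ^ n ≤ (H ^ 2) ^ (4 * t * q) := by
      calc eps a ^ n ≤ eps a ^ (g * (4 * t * q)) := pow_le_pow_right₀ he1.le h6
        _ = (eps a ^ g) ^ (4 * t * q) := by rw [pow_mul]
        _ ≤ (H ^ 2) ^ (4 * t * q) := pow_le_pow_left₀ (pow_pos he0 _).le hcc _
    exact absurd (lt_of_le_of_lt h7 hcon) (lt_irrefl _)
  have hb := block ha K X Co ℓ H hsumc hsum' hgap (2 * γ - 1)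
  rw [Finset.sum_filter, hK, Finset.sum_disjSum, Fintype.sum_bool] at hb
  rw [hfalse.1, htrue.1, hc2, hc3, hx2, hx3] at hb
  have e0 : ∑ u ∈ I ×ˢ J, (if ℓ (Sum.inl u) = 2 * γ - 1 then Co (Sum.inl u) * w a (X (Sum.inl u)) else 0)
      = ∑ ij ∈ I ×ˢ J',
      (if α ij.1 + β ij.2 = γ then c ij.1 * w a (x ij.1) * (b ij.2 * w a (y ij.2)) else 0) := by
    rw [Finset.sum_product, Finset.sum_product]
    refine Finset.sum_congr rfl fun i hi => ?_
    rw [hJ', Finset.sum_filter]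
    refine Finset.sum_congr rfl fun j hj => ?_
    by_cases hjT : 2 * t * z j ≤ k * n
    · have hj' : j ∈ J' := (hJm j).2 ⟨hj, hjT⟩
      rw [if_pos hjT, (hnearT i hi j hj').1]
      have e4 : (2 * (α i + β j) - 1 = 2 * γ - 1) ↔ (α i + β j = γ) := by
        constructor <;> intro h <;> linarith
      by_cases hh : α i + β j = γ
      · rw [if_pos (e4.2 hh), if_pos hh, hc1, hx1, w_add]
        ring
      · rw [if_neg (fun h => hh (e4.1 h)), if_neg hh]
    · have hj' : j ∉ J' := fun h => hjT ((hJm j).1 h).2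
      rw [if_neg hjT]
      obtain ⟨γ', hγ'⟩ := (hawayT i hi j hj hj').1
      rw [hγ', if_neg]
      omega
  rw [e0] at hb
  have e6 : (2 * (q : ℤ) - 1 = 2 * γ - 1) ↔ γ = q := by omega
  have e7 : (2 * (-(q : ℤ)) - 1 = 2 * γ - 1) ↔ γ = -q := by omega
  simp only [e6, e7] at hb
  have e8 : (if γ = (q : ℤ) then -κ₁ * w a n else 0) = -(if γ = (q : ℤ) then κ₁ * w a n else 0) := by
    split_ifs <;> simp
  have e9 : (if γ = -(q : ℤ) then -κ₂ * w a (-n) else 0) = -(if γ = -(q : ℤ) then κ₂ * w a (-n) else 0) := by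
    split_ifs <;> simp
  rw [e8, e9] at hb
  linear_combination hb

end Pool.Agent.N449.SQ
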