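import Pool.Agent.N449.SQ.Main

/-!
# Sparse factors of Lucas sequences with parameters `a`, `-1`
-/

set_option autoImplicit false
set_option maxHeartbeats 1000000

namespace Pool.Agent.N449.SQ

open Finset QuadraticAlgebra

/-- Lucas sequence with parameters `a`, `-1` -/
def U (a : ℤ) : ℕ → ℤ
  | 0 => 0
  | 1 => 1
  | k + 2 => a * U a (k + 1) + U a k

theorem w_succ (a : ℤ) (i : ℕ) : w a ((i + 1 : ℕ) : ℤ) = w a i * ⟨0, 1⟩ := by
  rw [Nat.cast_add, w_add]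
  congr 1
  simp [w, wu]

theorem w_re_im (a : ℤ) (i : ℕ) : (w a i).im = U a i ∧ (w a i).re = U a (i + 1) - a * U a i := by
  induction i with
  | zero => simp [w_zero, U]
  | succ i ih =>
    rw [w_succ]
    obtain ⟨h1, h2⟩ := ih
    constructor
    · simp [h1, h2]
    · simp [h1, U]

theorem mul_w_im (a : ℤ) (x y : ℤ) (i : ℕ) :
    ((⟨x, y⟩ : R a) * w a i).im = x * U a i + y * U a (i + 1) := by
  obtain ⟨h1, h2⟩ := w_re_im a i
  simp only [im_mul, h1, h2]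
  ring

theorem V_eq (a : ℤ) (i : ℕ) : V a i = 2 * U a (i + 1) - a * U a i := by
  induction i using Nat.strong_induction_on with
  | _ i ih =>
    match i with
    | 0 => simp [V, U]
    | 1 => simp [V, U]; ring
    | i + 2 =>
      rw [V, ih (i + 1) (by omega), ih i (by omega)]
      simp only [U]
      ring

theorem w_add_star (a : ℤ) (i : ℕ) : w a i + star (w a i) = (V a i : R a) := by
  obtain ⟨h1, h2⟩ := w_re_im a i
  rw [V_eq]
  ext
  · simp [h1, h2]; ring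
  · simp

theorem s₁_dl (a : ℤ) : s₁ a (dl a) = √((a : ℝ) ^ 2 + 4) := by
  rw [s₁_apply, dl]
  unfold eps
  push_cast
  ring

theorem s₂_dl (a : ℤ) : s₂ a (dl a) = -√((a : ℝ) ^ 2 + 4) := by
  rw [s₂_apply, dl]
  unfold eps'
  push_cast
  ring

theorem eps_lt {a : ℤ} (ha : 1 ≤ a) : eps a < a + 1 := by
  unfold eps
  have h1 : (1 : ℝ) ≤ a := by exact_mod_cast ha
  have h : √((a : ℝ) ^ 2 + 4) < a + 2 := by
    rw [Real.sqrt_lt' (by linarith)]
    nlinarith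
  linarith

theorem hs_pair {a : ℤ} (ha : 1 ≤ a) (x y : ℤ) :
    hs a ⟨x, y⟩ ≤ ((|x| + (a + 1) * |y| : ℤ) : ℝ) := by
  have h1 := eps_lt ha
  have h2 := one_lt_eps ha
  have h3 : |eps' a| ≤ a + 1 := by
    rw [eps'_eq, abs_neg, abs_of_pos (inv_pos.2 (eps_pos a))]
    have : (eps a)⁻¹ ≤ 1 := inv_le_one_of_one_le₀ h2.le
    linarith
  have h4 : |eps a| ≤ a + 1 := by rw [abs_of_pos (eps_pos a)]; exact h1.le
  unfold hs
  rw [s₁_apply, s₂_apply]
  push_cast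
  refine max_le ?_ ?_
  · calc |(x : ℝ) + y * eps a| ≤ |(x : ℝ)| + |(y : ℝ) * eps a| := abs_add_le _ _
      _ = |(x : ℝ)| + |eps a| * |(y : ℝ)| := by rw [abs_mul, mul_comm |(y : ℝ)|]
      _ ≤ _ := by gcongr
  · calc |(x : ℝ) + y * eps' a| ≤ |(x : ℝ)| + |(y : ℝ) * eps' a| := abs_add_le _ _
      _ = |(x : ℝ)| + |eps' a| * |(y : ℝ)| := by rw [abs_mul, mul_comm |(y : ℝ)|]
      _ ≤ _ := by gcongr

/-- **Sparse factors of Lucas sequences.** -/
theorem final {a : ℤ} (ha : 1 ≤ a) (hV : ∀ (T : ℤ) (r : ℕ), 1 ≤ T → 2 ≤ r → Odd r → V T r ≠ a)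
    (p : ℕ) (hp : p.Prime) (hp2 : p ≠ 2) (d e : ℤ) (hde : d * e = U a p ∨ d * e = V a p)
    (hd1 : ¬ (d ∣ 2 ∧ d ∣ a)) (he1 : ¬ (e ∣ 2 ∧ e ∣ a)) (hd0 : d ≠ 0)
    (S T : Finset ℕ) (u u' v v' : ℕ → ℤ)
    (hd : d = ∑ i ∈ S, (u i * U a i + u' i * U a (i + 1)))
    (he : e = ∑ j ∈ T, (v j * U a j + v' j * U a (j + 1))) :
    eps a ^ p ≤ ((2 * (a ^ 2 + 4) + 4 * (∑ i ∈ S, (|u i| + (a + 1) * |u' i|)) *
      (∑ j ∈ T, (|v j| + (a + 1) * |v' j|)) : ℤ) : ℝ) ^ ((8 * (T.card + 1)) ^ (S.card + 1)) := by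
  by_contra hcon
  push Not at hcon
  have hdom := isDomain ha
  have hpo : Odd p := hp.odd_of_ne_two hp2
  have haR : (1 : ℝ) ≤ a := by exact_mod_cast ha
  have hsq : √((a : ℝ) ^ 2 + 4) ≤ (a : ℝ) ^ 2 + 4 := by
    rw [Real.sqrt_le_left (by positivity)]
    nlinarith [sq_nonneg (a : ℝ)]
  have hsq0 : 0 < √((a : ℝ) ^ 2 + 4) := Real.sqrt_pos.2 (by positivity)
  have hdl0 : dl a ≠ 0 := by
    intro h
    have := congrArg QuadraticAlgebra.im h
    simp [dl] at this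
  have hsw : star (w a p) = -w a (-p) := by
    rw [star_w, hpo.neg_one_pow]; ring
  have hA : ∑ i ∈ S, hs a ⟨u i, u' i⟩ ≤ ((∑ i ∈ S, (|u i| + (a + 1) * |u' i|) : ℤ) : ℝ) := by
    rw [Int.cast_sum]
    exact Finset.sum_le_sum fun i _ => hs_pair ha _ _
  have hB : ∑ i ∈ T, hs a ⟨v i, v' i⟩ ≤ ((∑ i ∈ T, (|v i| + (a + 1) * |v' i|) : ℤ) : ℝ) := by
    rw [Int.cast_sum]
    exact Finset.sum_le_sum fun i _ => hs_pair ha _ _
  have hA0 : 0 ≤ ∑ i ∈ S, hs a ⟨u i, u' i⟩ := Finset.sum_nonneg fun _ _ => hs_nonneg _ _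
  have hB0 : 0 ≤ ∑ i ∈ T, hs a ⟨v i, v' i⟩ := Finset.sum_nonneg fun _ _ => hs_nonneg _ _
  have hAB := mul_le_mul hA hB hB0 (hA0.trans hA)
  have hAB0 : 0 ≤ (∑ i ∈ S, hs a ⟨u i, u' i⟩) * (∑ i ∈ T, hs a ⟨v i, v' i⟩) := mul_nonneg hA0 hB0
  have hHe : eps a ≤ ((2 * (a ^ 2 + 4) + 4 * (∑ i ∈ S, (|u i| + (a + 1) * |u' i|)) *
      (∑ j ∈ T, (|v j| + (a + 1) * |v' j|)) : ℤ) : ℝ) := by
    have := eps_lt ha
    push_cast
    push_cast at hAB
    nlinarith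
  have hgen : ∀ (W : ℤ) (κ₁ κ₂ : R a), d * e = W → |s₁ a κ₁| = |s₁ a κ₂| → κ₁ ≠ 0 →
      dl a * dl a * (W : R a) = κ₁ * w a p + κ₂ * w a (-p) →
      hs a κ₁ ≤ (a : ℝ) ^ 2 + 4 → hs a κ₂ ≤ (a : ℝ) ^ 2 + 4 →
      (d : R a) * dl a ∣ κ₁ ∨ (e : R a) * dl a ∣ κ₁ := by
    intro W κ₁ κ₂ h1 h2 h3 h4 h5 h6
    refine main ha hV p hp hp2 W d e h1 hd0 κ₁ κ₂ h2 h3 h4 S T (fun i => ⟨u i, u' i⟩)
      (fun i => ⟨v i, v' i⟩) ?_ ?_ _ ?_ hHe hcon
    · rw [hd]; exact Finset.sum_congr rfl fun i _ => (mul_w_im a _ _ i).symm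
    · rw [he]; exact Finset.sum_congr rfl fun i _ => (mul_w_im a _ _ i).symm
    · push_cast
      push_cast at hAB
      nlinarith
  have hlast : ∀ z : ℤ, (z : R a) * dl a ∣ dl a * dl a → z ∣ 2 ∧ z ∣ a := by
    rintro z ⟨c, hc⟩
    have h1 : dl a = z * c := mul_left_cancel₀ hdl0 (by rw [hc]; ring)
    have h2 := congrArg QuadraticAlgebra.im h1
    have h3 := congrArg QuadraticAlgebra.re h1
    simp only [dl, im_mul, re_mul, re_intCast, im_intCast, Int.cast_id] at h2 h3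
    constructor
    · exact ⟨c.im, by linarith⟩
    · exact ⟨-c.re, by linarith⟩
  rcases hde with h | h
  · have h1 := hgen _ (dl a) (dl a) h rfl hdl0
      (by
        have := sub_star' a (w a p)
        rw [(w_re_im a p).1] at this
        rw [mul_assoc, mul_comm (dl a) ((U a p : ℤ) : R a), ← this, hsw]
        ring)
      (by unfold hs; rw [s₁_dl, s₂_dl, abs_neg, max_self, abs_of_pos hsq0]; exact hsq)
      (by unfold hs; rw [s₁_dl, s₂_dl, abs_neg, max_self, abs_of_pos hsq0]; exact hsq)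
    rcases h1 with h2 | h2
    · exact hd1 (hlast d (Dvd.dvd.mul_left h2 _))
    · exact he1 (hlast e (Dvd.dvd.mul_left h2 _))
  · have hh : hs a (dl a * dl a) ≤ (a : ℝ) ^ 2 + 4 := by
      unfold hs
      rw [map_mul, map_mul, s₁_dl, s₂_dl, neg_mul_neg, max_self, ← pow_two, sqrt_sq,
        abs_of_pos (by positivity)]
    have h1 := hgen _ (dl a * dl a) (-(dl a * dl a)) h (by rw [map_neg, abs_neg])
      (mul_ne_zero hdl0 hdl0)
      (by
        rw [← w_add_star, hsw]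
        ring)
      hh (by rw [hs_neg]; exact hh)
    rcases h1 with h2 | h2
    · exact hd1 (hlast d h2)
    · exact he1 (hlast e h2)

/-- the companion sequence grows -/
theorem three_le_V (T : ℤ) (hT : 1 ≤ T) (r : ℕ) (hr : 2 ≤ r) : 3 ≤ V T r := by
  have h : ∀ k : ℕ, 3 ≤ V T (k + 2) ∧ 1 ≤ V T (k + 1) := by
    intro k
    induction k with
    | zero => exact ⟨by simp only [V]; nlinarith, by simpa [V] using hT⟩
    | succ k ih =>
      refine ⟨?_, by linarith [ih.1]⟩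
      rw [show k + 1 + 2 = (k + 1) + 2 from rfl, V]
      nlinarith [ih.1, ih.2]
  obtain ⟨k, rfl⟩ := Nat.exists_eq_add_of_le hr
  rw [add_comm]
  exact (h k).1

end Pool.Agent.N449.SQ
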