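import Pool.Agent.N449.SQ.Arith

/-!
# Symmetric factors of `κ₁ ε ^ p X ^ q + κ₂ ε ^ (-p) X ^ (-q)`
-/

set_option autoImplicit false
set_option maxHeartbeats 1000000

namespace Pool.Agent.N449.SQ

open Polynomial

theorem root_prod (A B : ℂ) (hA : A ≠ 0) (hB : B ≠ 0) (N : ℕ) (hN : 0 < N) (D : ℂ[X])
    (hD : D ∣ C A * X ^ N + C B) :
    ‖D.coeff 0‖ ^ N * ‖A‖ ^ D.natDegree = ‖D.leadingCoeff‖ ^ N * ‖B‖ ^ D.natDegree := by
  have hs : D.Splits := IsAlgClosed.splits D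
  have hP0 : (C A * X ^ N + C B : ℂ[X]) ≠ 0 := by
    intro h0
    have := congrArg (fun f => f.coeff 0) h0
    simp only [coeff_add, coeff_C_mul_X_pow, coeff_C_zero, coeff_zero] at this
    rw [if_neg (by omega)] at this
    simp at this
    exact hB this
  have hD0 : D ≠ 0 := by
    rintro rfl
    exact hP0 (zero_dvd_iff.1 hD)
  have hroot : ∀ r ∈ D.roots, ‖r‖ ^ N = ‖B‖ / ‖A‖ := by
    intro r hr
    have h1 : D.eval r = 0 := (mem_roots hD0).1 hr
    obtain ⟨Q, hQ⟩ := hD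
    have h2 : (C A * X ^ N + C B : ℂ[X]).eval r = 0 := by rw [hQ, eval_mul, h1, zero_mul]
    simp at h2
    have h3 : A * r ^ N = -B := by linear_combination h2
    have h4 : ‖A‖ * ‖r‖ ^ N = ‖B‖ := by rw [← norm_pow, ← norm_mul, h3, norm_neg]
    rw [eq_div_iff (norm_ne_zero_iff.2 hA), mul_comm, h4]
  have hprod : ‖D.roots.prod‖ ^ N = (‖B‖ / ‖A‖) ^ D.natDegree := by
    have h1 : ‖D.roots.prod‖ = (D.roots.map (fun r => ‖r‖)).prod := by
      have := map_multiset_prod (normHom : ℂ →*₀ ℝ) D.roots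
      simpa using this
    rw [h1, ← Multiset.prod_map_pow, Multiset.map_congr rfl hroot, Multiset.map_const',
      Multiset.prod_replicate, ← hs.natDegree_eq_card_roots]
  have h0 := hs.coeff_zero_eq_leadingCoeff_mul_prod_roots
  rw [h0]
  have hAn : ‖A‖ ^ D.natDegree ≠ 0 := pow_ne_zero _ (norm_ne_zero_iff.2 hA)
  simp only [norm_mul, norm_pow, norm_neg, norm_one, one_pow, one_mul]
  rw [mul_pow, hprod, div_pow]
  field_simp

theorem sym_poly {a : ℤ} (ha : 1 ≤ a) (hV : ∀ (T : ℤ) (r : ℕ), 1 ≤ T → 2 ≤ r → Odd r → V T r ≠ a)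
    (p : ℕ) (hp : p.Prime) (hp2 : p ≠ 2) (q M : ℕ) (hq : 0 < q) (hqp : q < p) (hqM : q ≤ 2 * M)
    (κ₁ κ₂ : R a) (hκ : |s₁ a κ₁| = |s₁ a κ₂|) (hκ0 : κ₁ ≠ 0)
    (D E : (R a)[X]) (hDd : D.natDegree ≤ 2 * M) (hEd : E.natDegree ≤ 2 * M)
    (hD : ∀ k ≤ 2 * M, star (D.coeff k) = -D.coeff (2 * M - k))
    (hE : ∀ k ≤ 2 * M, star (E.coeff k) = -E.coeff (2 * M - k))
    (hDE : D * E = C (κ₁ * w a p) * X ^ (2 * M + q) + C (κ₂ * w a (-p)) * X ^ (2 * M - q)) :
    (∃ c, D = C c * X ^ M) ∨ (∃ c, E = C c * X ^ M) := by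
  have hdom := isDomain ha
  have he0 := eps_pos a
  have hinj := s₁_inj ha
  have hκ₁ : s₁ a κ₁ ≠ 0 := fun h => hκ0 (hinj (by rw [h, map_zero]))
  have hκ₂ : κ₂ ≠ 0 := by
    rintro rfl
    rw [map_zero, abs_zero] at hκ
    exact hκ₁ (abs_eq_zero.1 hκ)
  have hK1 : κ₁ * w a p ≠ 0 := mul_ne_zero hκ0 (w_ne_zero a _)
  have hK2 : κ₂ * w a (-p) ≠ 0 := mul_ne_zero hκ₂ (w_ne_zero a _)
  have hdeg : (D * E).natDegree = 2 * M + q := by
    have h1 : (C (κ₂ * w a (-p)) * X ^ (2 * M - q) : (R a)[X]).natDegree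
        < (C (κ₁ * w a p) * X ^ (2 * M + q) : (R a)[X]).natDegree := by
      rw [natDegree_C_mul_X_pow _ _ hK1, natDegree_C_mul_X_pow _ _ hK2]
      omega
    rw [hDE, natDegree_add_eq_left_of_natDegree_lt h1, natDegree_C_mul_X_pow _ _ hK1]
  have hDE0 : D * E ≠ 0 := by
    intro h0
    rw [h0, natDegree_zero] at hdeg
    omega
  have hD0 : D ≠ 0 := left_ne_zero_of_mul hDE0
  have hE0 : E ≠ 0 := right_ne_zero_of_mul hDE0
  -- the shape of a symmetric polynomial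
  have shape : ∀ G : (R a)[X], G ≠ 0 → G.natDegree ≤ 2 * M →
      (∀ k ≤ 2 * M, star (G.coeff k) = -G.coeff (2 * M - k)) →
      ∃ m ≤ M, G.natDegree = M + m ∧ ∃ G' : (R a)[X], G = X ^ (M - m) * G' ∧
        G'.natDegree = 2 * m ∧ G'.leadingCoeff = G.leadingCoeff ∧
        G'.coeff 0 = -star G.leadingCoeff := by
    intro G hG0 hGd hG
    have h1 : G.coeff (2 * M - G.natDegree) ≠ 0 := by
      intro h2
      have h3 := hG G.natDegree hGd
      rw [h2, neg_zero, star_eq_zero] at h3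
      exact hG0 (leadingCoeff_eq_zero.1 h3)
    have h2 := le_natDegree_of_ne_zero h1
    obtain ⟨m, hm⟩ : ∃ m, G.natDegree = M + m := ⟨G.natDegree - M, by omega⟩
    have hmM : m ≤ M := by omega
    refine ⟨m, hmM, hm, ?_⟩
    have h3 : X ^ (M - m) ∣ G := by
      rw [X_pow_dvd_iff]
      intro k hk
      have h4 := hG (2 * M - k) (by omega)
      have h5 : G.coeff (2 * M - k) = 0 := coeff_eq_zero_of_natDegree_lt (by omega)
      rw [h5, star_zero, show 2 * M - (2 * M - k) = k by omega] at h4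
      exact (neg_eq_zero.1 h4.symm)
    obtain ⟨G', hG'⟩ := h3
    have hG'0 : G' ≠ 0 := by
      rintro rfl
      exact hG0 (by rw [hG', mul_zero])
    have h6 : G'.natDegree = 2 * m := by
      have := congrArg natDegree hG'
      rw [natDegree_mul (pow_ne_zero _ X_ne_zero) hG'0, natDegree_X_pow, hm] at this
      omega
    refine ⟨G', hG', h6, ?_, ?_⟩
    · have := congrArg leadingCoeff hG'
      rw [leadingCoeff_mul, leadingCoeff_X_pow, one_mul] at this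
      exact this.symm
    · have h7 : G.coeff (M - m) = G'.coeff 0 := by
        have := coeff_X_pow_mul G' (M - m) 0
        rw [zero_add] at this
        rw [← this, ← hG']
      rw [← h7, leadingCoeff, hG G.natDegree hGd, neg_neg, hm]
      congr 1
      omega
  obtain ⟨m₁, hm₁M, hm₁, D', hD', hD'd, hD'l, hD'0⟩ := shape D hD0 hDd hD
  obtain ⟨m₂, hm₂M, hm₂, E', hE', hE'd, hE'l, hE'0⟩ := shape E hE0 hEd hE
  have hsum : m₁ + m₂ = q := by
    rw [natDegree_mul hD0 hE0, hm₁, hm₂] at hdeg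
    omega
  have hprod : D' * E' = C (κ₁ * w a p) * X ^ (2 * q) + C (κ₂ * w a (-p)) := by
    have h1 : X ^ (2 * M - q) * (D' * E')
        = X ^ (2 * M - q) * (C (κ₁ * w a p) * X ^ (2 * q) + C (κ₂ * w a (-p))) := by
      have e1 : X ^ (2 * M - q) * (D' * E') = D * E := by
        conv_rhs => rw [hD', hE']
        rw [show 2 * M - q = (M - m₁) + (M - m₂) by omega, pow_add]
        ring
      rw [e1, hDE, mul_add]
      congr 1
      · rw [mul_left_comm, ← pow_add]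
        congr 2
        omega
      · rw [mul_comm]
    exact mul_left_cancel₀ (pow_ne_zero _ X_ne_zero) h1
  rcases Nat.eq_zero_or_pos m₁ with h0 | h0
  · left
    have h1 : D' = C (D'.coeff 0) := eq_C_of_natDegree_eq_zero (by rw [hD'd, h0])
    exact ⟨D'.coeff 0, by rw [← h1, mul_comm]; simpa [h0] using hD'⟩
  rcases Nat.eq_zero_or_pos m₂ with h0' | h0'
  · right
    have h1 : E' = C (E'.coeff 0) := eq_C_of_natDegree_eq_zero (by rw [hE'd, h0'])
    exact ⟨E'.coeff 0, by rw [← h1, mul_comm]; simpa [h0'] using hE'⟩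
  exfalso
  -- the modulus of the roots
  let f : R a →+* ℂ := Complex.ofRealHom.comp (s₁ a)
  have hf : ∀ z, ‖f z‖ = |s₁ a z| := fun z => by
    simp [f]
  have hfinj : Function.Injective f := Complex.ofReal_injective.comp hinj
  have hdvd : D'.map f ∣ C (f (κ₁ * w a p)) * X ^ (2 * q) + C (f (κ₂ * w a (-p))) := by
    refine ⟨E'.map f, ?_⟩
    rw [← Polynomial.map_mul, hprod, Polynomial.map_add, Polynomial.map_mul, Polynomial.map_C,
      Polynomial.map_pow, Polynomial.map_X, Polynomial.map_C]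
  have hr := root_prod _ _ (by rw [Ne, map_eq_zero_iff f hfinj]; exact hK1)
    (by rw [Ne, map_eq_zero_iff f hfinj]; exact hK2) (2 * q) (by omega) _ hdvd
  rw [natDegree_map_eq_of_injective hfinj, leadingCoeff_map_of_injective hfinj, coeff_map, hD'd,
    hD'l, hD'0, hf, hf, hf, hf, map_neg, abs_neg, s₁_star, map_mul, map_mul, abs_mul, abs_mul, s₁_w,
    s₁_w, ← hκ, zpow_neg, zpow_natCast, abs_of_pos (pow_pos he0 _),
    abs_of_pos (inv_pos.2 (pow_pos he0 _)), mul_pow, mul_pow] at hr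
  have hk0 : |s₁ a κ₁| ^ (2 * m₁) ≠ 0 := pow_ne_zero _ (abs_ne_zero.2 hκ₁)
  set z := D.leadingCoeff with hz
  have hz0 : z ≠ 0 := leadingCoeff_ne_zero.2 hD0
  refine ratio ha hV p hp hp2 q m₁ hqp h0 (by omega) z hz0 ?_
  have e1 : (|s₁ a z| ^ q) ^ 2 = (|s₂ a z| ^ q * eps a ^ (2 * p * m₁)) ^ 2 := by
    have hep : (eps a ^ p) ^ (2 * m₁) ≠ 0 := pow_ne_zero _ (pow_pos he0 _).ne'
    have e2 : |s₂ a z| ^ (2 * q) * (eps a ^ p) ^ (2 * m₁)
        = |s₁ a z| ^ (2 * q) * ((eps a ^ p)⁻¹) ^ (2 * m₁) := by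
      have e3 : |s₁ a κ₁| ^ (2 * m₁) * (|s₂ a z| ^ (2 * q) * (eps a ^ p) ^ (2 * m₁))
        = |s₁ a κ₁| ^ (2 * m₁) * (|s₁ a z| ^ (2 * q) * ((eps a ^ p)⁻¹) ^ (2 * m₁)) := by
        linear_combination hr
      exact mul_left_cancel₀ hk0 e3
    have e4 : |s₁ a z| ^ (2 * q) = |s₂ a z| ^ (2 * q) * ((eps a ^ p) ^ (2 * m₁) * (eps a ^ p) ^ (2 * m₁)) := by
      rw [← mul_assoc, e2, inv_pow, mul_assoc, inv_mul_cancel₀ hep, mul_one]
    calc (|s₁ a z| ^ q) ^ 2 = |s₁ a z| ^ (2 * q) := by rw [← pow_mul, mul_comm]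
      _ = |s₂ a z| ^ (2 * q) * ((eps a ^ p) ^ (2 * m₁) * (eps a ^ p) ^ (2 * m₁)) := e4
      _ = _ := by rw [mul_pow, ← pow_mul, ← pow_mul, ← pow_mul, ← pow_add]; congr 2 <;> ring
  exact (pow_left_inj₀ (by positivity) (by positivity) two_ne_zero).1 e1

end Pool.Agent.N449.SQ
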